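import Pool.Agent.PFC.StmtsB6b
import Pool.Agent.Helper14_AT8.FRY
import Pool.Agent.Helper94_PP.LemQ

/-!
# Squad PFC, row LNO: a block with an abelian defect group and inertial index one has one modular
character
-/

open scoped BigOperators

noncomputable section

namespace Pool.Agent.PFC.H51

open Pool.Agent.Helper51_AWC Pool.Agent.Helper79_WRA Pool.Agent.PP Pool.Agent.PP.KF
open Pool.Agent.PP.K9 Pool.Agent.PP.K9.H97 Pool.Agent.PP.H75 Pool.Agent.PP.T3

attribute [local instance] Ideal.Quotient.field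

/-- LNO -/
theorem lno (hWBO : WboStmt) (hLRK : T3.LrkStmt) (hRG1 : T8.Rg1Stmt) : LnoStmt := by
  classical
  intro ℓ _ M _ hM H _ _ b V γ hLd hix
  have hb : IsIdem b := hLd.blk.1
  have := Fintype.ofFinite H
  obtain ⟨κ₀, hκ₀⟩ := T8.H14.irrE_nonempty M hb hLd.blk.2.1
  have hagree := hRG1 ℓ M hM H b V γ hLd hix
  have hfin : (IrrE M b).Finite := irr_finite'.subset fun χ hχ => hχ.1
  let I := {κ : H → ℂ // κ ∈ IrrE M b}
  have : Finite I := hfin.to_subtype
  have := Fintype.ofFinite I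
  have hc : (Nat.card H : ℂ) ≠ 0 := by exact_mod_cast Nat.card_pos.ne'
  have hsum : ∀ f : (H → ℂ) → ℂ, ∑ᶠ χ ∈ IrrE M b, f χ = ∑ κ : I, f κ.1 := by
    intro f
    rw [← finsum_eq_sum_of_fintype]
    exact (finsum_subtype_eq_finsum_cond (f := f) (fun χ => χ ∈ IrrE M b)).symm
  have h1c : (0 : ℂ) ≠ 1 := zero_ne_one
  -- the number of modular characters
  have hreg1 : Reg ℓ (1 : H) := by
    show (orderOf (1 : H)).Coprime ℓ
    rw [orderOf_one]
    exact Nat.coprime_one_left ℓ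
  have hln := hLRK ℓ M hM H b hb
  let A : ℂ := ∑ᶠ (s : H) (_ : Reg ℓ s), κ₀ s * starRingEnd ℂ (κ₀ s)
  have hln2 : (ln b : ℂ) = (Nat.card H : ℂ)⁻¹ * ((Fintype.card I : ℂ) * A) := by
    rw [hln]
    apply congrArg (fun z => (Nat.card H : ℂ)⁻¹ * z)
    have hA : ((Fintype.card I : ℂ) * A) =
        ∑ᶠ (s : H) (_ : Reg ℓ s), (Fintype.card I : ℂ) * (κ₀ s * starRingEnd ℂ (κ₀ s)) := by
      show (Fintype.card I : ℂ) * (∑ᶠ (s : H) (_ : Reg ℓ s), κ₀ s * starRingEnd ℂ (κ₀ s)) = _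
      rw [mul_finsum]
      apply finsum_congr
      intro s
      by_cases hs : Reg ℓ s
      · rw [finsum_eq_if, finsum_eq_if, if_pos hs, if_pos hs]
      · rw [finsum_eq_if, finsum_eq_if, if_neg hs, if_neg hs, mul_zero]
    rw [hA]
    apply finsum_congr
    intro s
    apply finsum_congr
    intro hs
    rw [hsum (fun χ => χ s * starRingEnd ℂ (χ s))]
    rw [Finset.sum_congr rfl (fun κ _ => by rw [hagree κ.1 κ.2 κ₀ hκ₀ s hs])]
    rw [Finset.sum_const, Finset.card_univ, nsmul_eq_mul]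
  -- the projection formula at the element one
  have hproj : (Nat.card H : ℂ)⁻¹ * ((Fintype.card I : ℂ) * A) = 1 := by
    have hA2 : A = ∑ g : H, if Reg ℓ g then κ₀ g * starRingEnd ℂ (κ₀ g) else 0 := by
      show (∑ᶠ (s : H) (_ : Reg ℓ s), κ₀ s * starRingEnd ℂ (κ₀ s)) = _
      rw [finsum_eq_sum_of_fintype]
      refine Finset.sum_congr rfl fun s _ => ?_
      rw [finsum_eq_if]
    have h0 : ∀ g : H, ¬ Reg ℓ g → ∑ k : I, k.1 1 * starRingEnd ℂ (k.1 g) = 0 := by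
      intro g hg
      have h1 := hWBO ℓ M hM H b hb 1 g hreg1 hg
      rw [hsum (fun χ => χ (1 : H)⁻¹ * χ g)] at h1
      have h2 := congrArg (starRingEnd ℂ) h1
      rw [map_sum, map_zero] at h2
      rw [← h2]
      refine Finset.sum_congr rfl fun k _ => ?_
      rw [map_mul, inv_one, H94.irr_star k.2.1 (1 : H), inv_one]
    have hne : κ₀ 1 ≠ 0 := irr_one_ne hκ₀.1
    have h3 : ∑ k : I, k.1 (1 : H) * ∑ g : H, κ₀ g * k.1 g⁻¹ = κ₀ 1 * Nat.card H := by
      rw [Finset.sum_eq_single (⟨κ₀, hκ₀⟩ : I)]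
      · show κ₀ 1 * ∑ g : H, κ₀ g * κ₀ g⁻¹ = κ₀ 1 * Nat.card H
        rw [irr_orth_self hκ₀.1, Nat.card_eq_fintype_card]
      · intro k _ hk
        rw [irr_orth_ne hκ₀.1 k.2.1 (fun h => hk (Subtype.ext h.symm)), mul_zero]
      · intro h
        exact absurd (Finset.mem_univ _) h
    have h4 : ∑ k : I, k.1 (1 : H) * ∑ g : H, κ₀ g * k.1 g⁻¹ =
        ∑ g : H, (∑ k : I, k.1 1 * starRingEnd ℂ (k.1 g)) * κ₀ g := by
      simp only [Finset.mul_sum, Finset.sum_mul]
      rw [Finset.sum_comm]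
      refine Finset.sum_congr rfl fun g _ => Finset.sum_congr rfl fun k _ => ?_
      rw [H94.irr_star k.2.1]
      ring
    have h5 : ∑ g : H, (∑ k : I, k.1 1 * starRingEnd ℂ (k.1 g)) * κ₀ g =
        κ₀ 1 * ((Fintype.card I : ℂ) * A) := by
      rw [hA2, Finset.mul_sum, Finset.mul_sum]
      refine Finset.sum_congr rfl fun g _ => ?_
      by_cases hg : Reg ℓ g
      · rw [if_pos hg]
        have h6 : ∑ k : I, k.1 (1 : H) * starRingEnd ℂ (k.1 g) =
            (Fintype.card I : ℂ) * (κ₀ 1 * starRingEnd ℂ (κ₀ g)) := by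
          rw [Finset.sum_congr rfl (fun κ _ => by
            rw [hagree κ.1 κ.2 κ₀ hκ₀ g hg, hagree κ.1 κ.2 κ₀ hκ₀ 1 hreg1])]
          rw [Finset.sum_const, Finset.card_univ, nsmul_eq_mul]
        rw [h6]
        ring
      · rw [if_neg hg, h0 g hg]
        ring
    have h7 : κ₀ 1 * ((Fintype.card I : ℂ) * A) = κ₀ 1 * Nat.card H := by
      rw [← h5, ← h4, h3]
    have h8 : (Fintype.card I : ℂ) * A = Nat.card H := mul_left_cancel₀ hne h7
    rw [h8, inv_mul_cancel₀ hc]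
  have h9 : (ln b : ℂ) = 1 := by rw [hln2, hproj]
  exact_mod_cast h9

end Pool.Agent.PFC.H51
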