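import Pool.Agent.PFC.StmtsB4b

/-!
# Squad PFC, row QGL: gluing

`glue` is the gluing for an arbitrary upwards closed family `T` of subgroups with a weight `μ` whose
sums over `{Q ∈ T : Q ⊔ R = S}` are `-1` for `S = R` and `0` otherwise (`R ∈ T`).
-/

open scoped BigOperators TensorProduct

noncomputable section

namespace Pool.Agent.PFC.H51

/-- the sign -/
def sg (b : Bool) : ℤ := if b then 1 else -1

open Classical in
/-- the signed number of the entries with the first component `S` -/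
def wt {ι : Type} (L : List (ι × Bool)) (S : ι) : ℤ :=
  (L.map (fun p => if p.1 = S then sg p.2 else 0)).sum

open Classical in
theorem wt_count {ι : Type} (L : List (ι × Bool)) (S : ι) :
    (L.count (S, true) : ℤ) - (L.count (S, false) : ℤ) = wt L S := by
  induction L with
  | nil => simp [wt]
  | cons p L ih =>
    obtain ⟨Q, b⟩ := p
    have h1 : wt ((Q, b) :: L) S = (if Q = S then sg b else 0) + wt L S := by
      simp [wt]
    rw [h1, ← ih, List.count_cons, List.count_cons]
    by_cases hQ : Q = S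
    · subst hQ
      cases b
      · simp [sg]; ring
      · simp [sg]; ring
    · simp [hQ]

theorem wt_flat {ι κ : Type} (E : List κ) (g : κ → List (ι × Bool)) (S : ι) :
    wt (E.flatMap g) S = (E.map (fun x => wt (g x) S)).sum := by
  induction E with
  | nil => simp [wt]
  | cons x E ih =>
    have h1 : wt ((x :: E).flatMap g) S = wt (g x) S + wt (E.flatMap g) S := by
      simp [wt, List.flatMap_cons]
    rw [h1, ih, List.map_cons, List.sum_cons]

open Classical in
theorem wt_rep {ι : Type} (n : ℕ) (Q S : ι) (b : Bool) :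
    wt (List.replicate n (Q, b)) S = if Q = S then (n : ℤ) * sg b else 0 := by
  induction n with
  | zero => simp [wt]
  | succ n ih =>
    have h1 : wt (List.replicate (n + 1) (Q, b)) S =
        (if Q = S then sg b else 0) + wt (List.replicate n (Q, b)) S := by
      simp [wt, List.replicate_succ]
    rw [h1, ih]
    by_cases hQ : Q = S
    · simp only [hQ, if_true]; push_cast; ring
    · simp [hQ]

section lst
variable {V : Type} [CommGroup V] [Finite V]

open Classical in
/-- the list of the subgroups in `T` with multiplicities -/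
def lst (T : Set (Subgroup V)) (μ : Subgroup V → ℤ) : List (Subgroup V × Bool) :=
  have := Fintype.ofFinite (Subgroup V)
  ((Finset.univ : Finset (Subgroup V)).toList.filter (fun Q => Q ∈ T)).flatMap
    (fun Q => List.replicate (μ Q).natAbs (Q, decide (0 < μ Q)))

theorem abs_sg (n : ℤ) : (n.natAbs : ℤ) * sg (decide (0 < n)) = n := by
  unfold sg
  by_cases h : 0 < n
  · simp only [h, decide_true, if_true, mul_one]
    omega
  · simp only [h, decide_false]
    simp only [Bool.false_eq_true, if_false]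
    omega

theorem mem_lst {T : Set (Subgroup V)} {μ : Subgroup V → ℤ} {p : Subgroup V × Bool}
    (hp : p ∈ lst T μ) : p.1 ∈ T := by
  classical
  unfold lst at hp
  rw [List.mem_flatMap] at hp
  obtain ⟨Q, hQ, hp⟩ := hp
  rw [List.mem_filter] at hQ
  have h1 := List.eq_of_mem_replicate hp
  rw [h1]
  have h2 := hQ.2
  simpa using h2

open Classical in
theorem wt_lst (T : Set (Subgroup V)) (μ : Subgroup V → ℤ) (f : Subgroup V → Subgroup V)
    (S : Subgroup V) : wt ((lst T μ).map (fun p => (f p.1, p.2))) S =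
      ∑ᶠ Q ∈ {Q : Subgroup V | Q ∈ T ∧ f Q = S}, μ Q := by
  let _ : Fintype (Subgroup V) := Fintype.ofFinite (Subgroup V)
  have h0 : (lst T μ).map (fun p => (f p.1, p.2)) =
      ((Finset.univ : Finset (Subgroup V)).toList.filter (fun Q => Q ∈ T)).flatMap
        (fun Q => List.replicate (μ Q).natAbs (f Q, decide (0 < μ Q))) := by
    unfold lst
    rw [List.map_flatMap]
    simp only [List.map_replicate]
  rw [h0, wt_flat]
  have h1 : ∀ Q : Subgroup V, wt (List.replicate (μ Q).natAbs (f Q, decide (0 < μ Q))) S =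
      if f Q = S then μ Q else 0 := by
    intro Q
    rw [wt_rep, abs_sg]
  simp only [h1]
  rw [finsum_mem_eq_finite_toFinset_sum _ (Set.toFinite _)]
  have h2 : ∀ (E : List (Subgroup V)) (g : Subgroup V → ℤ),
      ((E.filter (fun Q => Q ∈ T)).map g).sum = (E.map (fun Q => if Q ∈ T then g Q else 0)).sum := by
    intro E g
    induction E with
    | nil => simp
    | cons x E ih =>
      by_cases hx : x ∈ T
      · simp [hx, ih]
      · simp [hx, ih]
  rw [h2]
  have h3 : ((Finset.univ : Finset (Subgroup V)).toList.map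
      (fun Q => if Q ∈ T then (if f Q = S then μ Q else 0) else 0)).sum =
      ∑ Q : Subgroup V, (if Q ∈ T then (if f Q = S then μ Q else 0) else 0) :=
    Finset.sum_map_toList _ _
  rw [h3]
  have h4 : (Set.toFinite {Q : Subgroup V | Q ∈ T ∧ f Q = S}).toFinset =
      (Finset.univ : Finset (Subgroup V)).filter (fun Q => Q ∈ T ∧ f Q = S) := by
    ext Q
    simp
  rw [h4, Finset.sum_filter]
  refine Finset.sum_congr rfl fun Q _ => ?_
  by_cases hQ : Q ∈ T
  · by_cases hf : f Q = S
    · simp [hQ, hf]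
    · simp [hQ, hf]
  · simp [hQ]

open Classical in
theorem count_lst (T : Set (Subgroup V)) (μ : Subgroup V → ℤ) (Q : Subgroup V) (b : Bool) :
    (lst T μ).count (Q, b) = if Q ∈ T ∧ b = decide (0 < μ Q) then (μ Q).natAbs else 0 := by
  let _ : Fintype (Subgroup V) := Fintype.ofFinite (Subgroup V)
  have h0 : lst T μ =
      ((Finset.univ : Finset (Subgroup V)).toList.filter (fun Q => Q ∈ T)).flatMap
        (fun Q => List.replicate (μ Q).natAbs (Q, decide (0 < μ Q))) := rfl
  rw [h0]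
  have h1 : ∀ (E : List (Subgroup V)), E.Nodup →
      ((E.filter (fun Q => Q ∈ T)).flatMap
        (fun Q => List.replicate (μ Q).natAbs (Q, decide (0 < μ Q)))).count (Q, b) =
        if Q ∈ E ∧ Q ∈ T ∧ b = decide (0 < μ Q) then (μ Q).natAbs else 0 := by
    intro E hE
    induction E with
    | nil => simp
    | cons x E ih =>
      rw [List.nodup_cons] at hE
      have ih' := ih hE.2
      by_cases hx : x ∈ T
      · rw [List.filter_cons_of_pos (by simpa using hx), List.flatMap_cons, List.count_append, ih',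
          List.count_replicate]
        by_cases hxQ : x = Q
        · subst hxQ
          have hne : ¬ (x ∈ E) := hE.1
          by_cases hb : b = decide (0 < μ x)
          · simp [hne, hx, hb]
          · have hb' : ¬ (decide (0 < μ x) = b) := fun h => hb h.symm
            simp [hne, hb, hb']
        · have hxQ' : ¬ (Q = x) := fun h => hxQ h.symm
          simp [hxQ, hxQ']
      · rw [List.filter_cons_of_neg (by simpa using hx), ih']
        by_cases hxQ : x = Q
        · subst hxQ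
          simp [hx]
        · have hxQ' : ¬ (Q = x) := fun h => hxQ h.symm
          simp [hxQ']
  rw [h1 _ (Finset.nodup_toList _)]
  simp

end lst

/-- the gluing for a family `T` -/
theorem glue (hqlp : QlpStmt) (hqlq : QlqStmt) (hqlr : QlrStmt) (hqsn : QsnStmt)
    (hqdi : QdiStmt) (hqis : QisStmt) (ℓ : ℕ) [Fact ℓ.Prime] (F V : Type) [Field F] [CharP F ℓ]
    [CommGroup V] [Finite V] (Sg : Set (MulAut V)) (S : Subgroup V → IA F V) (hV : IsPGroup ℓ V)
    (T : Set (Subgroup V)) (hup : ∀ Q ∈ T, ∀ R : Subgroup V, Q ⊔ R ∈ T)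
    (μ : Subgroup V → ℤ) (hμ : ∀ σ ∈ Sg, ∀ Q : Subgroup V, μ (Q.map σ.toMonoidHom) = μ Q)
    (hT : ∀ σ ∈ Sg, ∀ Q : Subgroup V, Q.map σ.toMonoidHom ∈ T ↔ Q ∈ T)
    (hw1 : ∀ R ∈ T, ∑ᶠ Q ∈ {Q : Subgroup V | Q ∈ T ∧ Q ⊔ R = R}, μ Q = -1)
    (hw0 : ∀ R ∈ T, ∀ P : Subgroup V, P ≠ R →
      ∑ᶠ Q ∈ {Q : Subgroup V | Q ∈ T ∧ Q ⊔ R = P}, μ Q = 0)
    (hS : ∀ Q ∈ T, Mx (S Q) ∧ CP (S Q))
    (hB : ∀ Q ∈ T, ∀ R : Subgroup V, BQ (S Q) (S (Q ⊔ R)) R) (h1 : Iso (S ⊤) (IA.one F V))
    (hσ : ∀ σ ∈ Sg, ∀ Q ∈ T, IsoT σ (S Q) (S (Q.map σ.toMonoidHom))) :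
    ∃ N : IA F V, Mx N ∧ CP N ∧ (∀ σ ∈ Sg, Rz N σ) ∧ BQ N (IA.one F V) ⊤ ∧
      ∀ R ∈ T, ∃ N' : IA F V, BQ N N' R ∧ Ret (N'.tens (S R)) ∧
        BQ (N'.tens (S R)) (IA.one F V) ⊤ := by
  classical
  obtain ⟨hrefl, hsymm, htrans, hBQi, hCPi, hMxi, hReti, htens, -, hcomm, -, -, -, hT1, hT2, -, -,
    -⟩ := hqis F V
  have q1 : ∀ L' : List (Subgroup V × Bool), (∀ p ∈ L', Mx (S p.1)) → Mx (prd S L') :=
    fun L' => (hqlq ℓ F V (Subgroup V) (Subgroup V) S S (fun Q => Q) L' hV).1
  have q2 : ∀ L' : List (Subgroup V × Bool), (∀ p ∈ L', CP (S p.1)) → CP (prd S L') :=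
    fun L' => (hqlq ℓ F V (Subgroup V) (Subgroup V) S S (fun Q => Q) L' hV).2.1
  have q3 : ∀ (L' : List (Subgroup V × Bool)) (R : Subgroup V),
      (∀ p ∈ L', BQ (S p.1) (S (p.1 ⊔ R)) R) →
      BQ (prd S L') (prd S (L'.map (fun p => (p.1 ⊔ R, p.2)))) R :=
    fun L' R => (hqlq ℓ F V (Subgroup V) (Subgroup V) S S (fun Q => Q ⊔ R) L' hV).2.2.1 R
  have q4 : ∀ (L' : List (Subgroup V × Bool)) (σ : MulAut V),
      (∀ p ∈ L', IsoT σ (S p.1) (S (p.1.map σ.toMonoidHom))) →
      IsoT σ (prd S L') (prd S (L'.map (fun p => (p.1.map σ.toMonoidHom, p.2)))) :=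
    fun L' σ => (hqlq ℓ F V (Subgroup V) (Subgroup V) S S (fun Q => Q.map σ.toMonoidHom) L'
      hV).2.2.2.1 σ
  have q5 : ∀ L' : List (Subgroup V × Bool), (∀ p ∈ L', Iso (S p.1) (IA.one F V)) →
      Iso (prd S L') (IA.one F V) :=
    fun L' => (hqlq ℓ F V (Subgroup V) (Subgroup V) S S (fun Q => Q) L' hV).2.2.2.2
  clear hqlq
  generalize hLdef : lst T μ = L
  have hL : ∀ p ∈ L, p.1 ∈ T := fun p hp => mem_lst (hLdef ▸ hp)
  -- dimensions
  have hdim : ∀ Q ∈ T, (Module.finrank F (S Q).A : F) ≠ 0 := by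
    intro Q hQ
    obtain ⟨β, s, hβ⟩ := hB Q hQ ⊤
    have h2 := hqdi ℓ F V (S Q).A (S (Q ⊔ ⊤)).A (cj F (S Q).ι) (cj F (S (Q ⊔ ⊤)).ι) ⊤ β s hV
      hβ.toBrS
    rw [h2, sup_top_eq]
    obtain ⟨e, -⟩ := h1
    have h3 : Module.finrank F (S ⊤).A = 1 := by
      rw [e.toLinearEquiv.finrank_eq]
      exact Module.finrank_self F
    rw [h3, Nat.cast_one]
    exact one_ne_zero
  -- products over lists with entries in `T` have the Brauer quotient `F` at `⊤`
  have htop : ∀ L' : List (Subgroup V × Bool), (∀ p ∈ L', p.1 ∈ T) →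
      BQ (prd S L') (IA.one F V) ⊤ := by
    intro L' hL'
    have h2 := q3 L' ⊤ (fun p hp => hB p.1 (hL' p hp) ⊤)
    have h3 : Iso (prd S (L'.map (fun p => (p.1 ⊔ ⊤, p.2)))) (IA.one F V) := by
      refine q5 _ ?_
      intro p hp
      rw [List.mem_map] at hp
      obtain ⟨p', -, rfl⟩ := hp
      show Iso (S (p'.1 ⊔ ⊤)) (IA.one F V)
      rw [sup_top_eq]
      exact h1
    exact hBQi _ _ _ _ ⊤ (hrefl _) h3 h2
  have hMxN : Mx (prd S L) := q1 L (fun p hp => (hS p.1 (hL p hp)).1)
  have hCPN : CP (prd S L) := q2 L (fun p hp => (hS p.1 (hL p hp)).2)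
  refine ⟨prd S L, hMxN, hCPN, ?_, htop L hL, ?_⟩
  · intro σ hσS
    have h2 := q4 L σ (fun p hp => hσ σ hσS p.1 (hL p hp))
    have hinj : Function.Injective (fun p : Subgroup V × Bool => (p.1.map σ.toMonoidHom, p.2)) := by
      intro p p' h
      rw [Prod.mk.injEq] at h
      exact Prod.ext (Subgroup.map_injective σ.injective h.1) h.2
    have h3 : (L.map (fun p => (p.1.map σ.toMonoidHom, p.2))).Perm L := by
      rw [List.perm_iff_count]
      rintro ⟨Q, b⟩
      let Q' : Subgroup V := Q.comap σ.toMonoidHom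
      have hQ' : Q'.map σ.toMonoidHom = Q :=
        Subgroup.map_comap_eq_self_of_surjective σ.surjective Q
      have h4 := List.count_map_of_injective L
        (fun p : Subgroup V × Bool => (p.1.map σ.toMonoidHom, p.2)) hinj (Q', b)
      have h5 : ((Q'.map σ.toMonoidHom, b) : Subgroup V × Bool) = (Q, b) := by rw [hQ']
      rw [← h5]
      refine h4.trans ?_
      rw [← hLdef, count_lst, count_lst, hμ σ hσS, hT σ hσS]
    have h6 := hqlp F V (Subgroup V) S _ _ h3
    have h7 : IsoT (1 * σ) (prd S L) (prd S L) :=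
      hT1 σ 1 _ _ _ h2 ((hT2 _ _).mpr h6)
    rw [one_mul] at h7
    exact (hqsn F V).1 _ σ hMxN h7
  · intro R hR
    let LR := L.map (fun p => (p.1 ⊔ R, p.2))
    have hLR : ∀ p ∈ (R, true) :: LR, p.1 ∈ T := by
      intro p hp
      rw [List.mem_cons] at hp
      rcases hp with hp | hp
      · rw [hp]; exact hR
      · rw [List.mem_map] at hp
        obtain ⟨p', hp', rfl⟩ := hp
        exact hup _ (hL p' hp') R
    refine ⟨prd S LR, ?_, ?_, ?_⟩
    · exact q3 L R (fun p hp => hB p.1 (hL p hp) R)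
    · have h2 : Ret (prd S ((R, true) :: LR)) := by
        apply hqlr F V (Subgroup V) S
        · intro p hp
          exact ⟨(hS p.1 (hLR p hp)).1, hdim p.1 (hLR p hp)⟩
        · intro P
          have h3 := wt_count ((R, true) :: LR) P
          have h4 : wt ((R, true) :: LR) P = (if R = P then 1 else 0) + wt LR P := by
            simp [wt, sg]
          have h5 : wt LR P = ∑ᶠ Q ∈ {Q : Subgroup V | Q ∈ T ∧ Q ⊔ R = P}, μ Q := by
            rw [← wt_lst T μ (fun Q => Q ⊔ R) P, hLdef]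
          have h6 : wt ((R, true) :: LR) P = 0 := by
            rw [h4, h5]
            by_cases hP : R = P
            · subst hP
              rw [hw1 R hR, if_pos rfl]
              norm_num
            · rw [hw0 R hR P (fun h => hP h.symm), if_neg hP, add_zero]
          rw [h6] at h3
          have h7 : (((R, true) :: LR).count (P, true) : ℤ) =
              (((R, true) :: LR).count (P, false) : ℤ) := by linarith
          exact_mod_cast h7
      exact hReti _ _ (hcomm (S R) (prd S LR)) h2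
    · have h2 := htop ((R, true) :: LR) hLR
      exact hBQi _ _ _ _ ⊤ (hcomm (S R) (prd S LR)) (hrefl _) h2

/-- QGL -/
theorem qgl (hqmo : QmoStmt) (hqlp : QlpStmt) (hqlq : QlqStmt) (hqlr : QlrStmt) (hqsn : QsnStmt)
    (hqdi : QdiStmt) (hqis : QisStmt) : QglStmt := by
  intro ℓ _ F V _ _ _ _ Sg S hV hS hB h1 hσ
  obtain ⟨μ, hμ1, hμ2⟩ := hqmo V
  obtain ⟨N, hN1, hN2, hN3, hN4, hN5⟩ := glue hqlp hqlq hqlr hqsn hqdi hqis ℓ F V Sg S hV
    {Q | Q ≠ ⊥} (by
      intro Q hQ R h
      apply hQ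
      rw [eq_bot_iff, ← h]
      exact le_sup_left) μ (fun σ _ Q => hμ1 σ Q) (by
      intro σ _ Q
      show Q.map σ.toMonoidHom ≠ ⊥ ↔ Q ≠ ⊥
      rw [Ne, Ne, Subgroup.map_eq_bot_iff_of_injective Q σ.injective])
    (fun R hR => (hμ2 R R hR).1 rfl) (fun R hR P hP => (hμ2 R P hR).2 hP)
    (fun Q hQ => hS Q hQ) (fun Q hQ R => hB Q hQ R) h1 (fun σ hs Q hQ => hσ σ hs Q hQ)
  exact ⟨N, hN1, hN2, hN3, hN4, fun R hR => hN5 R hR⟩

end Pool.Agent.PFC.H51
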